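import Mathlib
import Pool.Agent.H536.OC.U5
import Pool.Agent.H536.OC.SGM
import Pool.Agent.H536.OC.SVD
import Pool.Agent.H536.OC.SLen

/-!
# Lenstra's sets of primes for cyclotomic fields whose conductor is a power of the height

Lenstra's set `S(F, C, W, k)` for `F = ℚ(ζ_f)`, `C = {e}` and a group `W` of rank at least 12: for EVERY even modulus
`f ≤ X ^ δ` and EVERY class `e` modulo `f` with `gcd(e - 1, f) ∣ k` it has at least `X ^ 0.97` elements below `X`.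
For cyclic groups: let `w₀, ..., w₁₁` be multiplicatively independent rationals; then for each such `f, e, k` one of the
34 numbers `a_t = ∏ w_i ^ ((2 t) ^ i)`, `1 ≤ t ≤ 34`, has this property; in particular (`k = 1`) it is a primitive root
modulo many primes of the class if `gcd(e - 1, f) = 2` and `w₀` is a nonsquare modulo the primes `q ≡ e (mod f)`.
(Siegel zeros are allowed.)
-/

open Finset

namespace Pool.Agent.Results.MP_48b1c3_nt.EveryLargeModulus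

/-- `W` consists of `q`-units and the index of its image in `(ℤ/q)ˣ` divides `k` -/
def Admits (W : Subgroup ℚˣ) (k q : ℕ) : Prop :=
  (∀ w ∈ W, padicValRat q (w : ℚ) = 0) ∧
  (Subgroup.closure {u : (ZMod q)ˣ | ∃ w ∈ W,
      (((w : ℚ).num : ℤ) : ZMod q) = (u : ZMod q) * (((w : ℚ).den : ℕ) : ZMod q)}).index ∣ k

/-- multiplicative independence -/
def MultIndep {r : ℕ} (w : Fin r → ℚˣ) : Prop := ∀ j : Fin r → ℤ, ∏ i, w i ^ j i = 1 → j = 0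

theorem result : ∃ δ : ℝ, 0 < δ ∧
    (∀ W : Subgroup ℚˣ, W.FG → (∃ w : Fin 12 → ℚˣ, (∀ i, w i ∈ W) ∧ MultIndep w) →
      ∃ X0 : ℕ, ∀ X : ℕ, X0 ≤ X → ∀ f e k : ℕ, 2 ∣ f → 0 < f → (f : ℝ) ≤ (X : ℝ) ^ δ → e.Coprime f →
      Nat.gcd (e - 1) f ∣ k →
      ∃ S : Finset ℕ, (X : ℝ) ^ (97 / 100 : ℝ) ≤ S.card ∧
        ∀ q ∈ S, q.Prime ∧ q ≤ X ∧ q ≡ e [MOD f] ∧ Admits W k q) ∧
    (∀ w : Fin 12 → ℚˣ, MultIndep w →
      ∃ X0 : ℕ, ∀ X : ℕ, X0 ≤ X → ∀ f e k : ℕ, 2 ∣ f → 0 < f → (f : ℝ) ≤ (X : ℝ) ^ δ → e.Coprime f →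
      (Nat.gcd (e - 1) f ∣ k ∨ ((∃ j : ℕ, Nat.gcd (e - 1) f ∣ 2 ^ j * k) ∧
        ∀ q : ℕ, q.Prime → q ≡ e [MOD f] → ∀ u : ZMod q,
          (((w 0 : ℚ).num : ℤ) : ZMod q) ≠ u ^ 2 * (((w 0 : ℚ).den : ℕ) : ZMod q))) →
      ∃ t ∈ Icc 1 34, ∃ S : Finset ℕ, (X : ℝ) ^ (97 / 100 : ℝ) ≤ S.card ∧
        ∀ q ∈ S, q.Prime ∧ q ≤ X ∧ q ≡ e [MOD f] ∧
          Admits (Subgroup.zpowers (∏ i, w i ^ ((2 * t) ^ (i : ℕ)))) k q) := by
  have hL := Pool.Agent.H536.OC.len Pool.Agent.H536.OC.U5 Pool.Agent.H536.OC.gm Pool.Agent.H536.OC.vd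
    Pool.Agent.H536.OC.indx
  obtain ⟨δ1, hδ1, h1⟩ := Pool.Agent.H536.OC.lenW hL
  obtain ⟨δ2, hδ2, h2⟩ := hL
  refine ⟨min δ1 δ2, lt_min hδ1 hδ2, fun W hW hw => ?_, fun w hw => ?_⟩
  · obtain ⟨X0, hX0⟩ := h1 W hW hw
    refine ⟨max X0 1, fun X hX f e k hf2 hf hfX he hk => ?_⟩
    have hX1 : (1 : ℝ) ≤ X := by exact_mod_cast (le_max_right _ _).trans hX
    exact hX0 X ((le_max_left _ _).trans hX) f e k hf2 hf
      (hfX.trans (Real.rpow_le_rpow_of_exponent_le hX1 (min_le_left _ _))) he hk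
  · obtain ⟨X0, hX0⟩ := h2 w hw
    refine ⟨max X0 1, fun X hX f e k hf2 hf hfX he hk => ?_⟩
    have hX1 : (1 : ℝ) ≤ X := by exact_mod_cast (le_max_right _ _).trans hX
    obtain ⟨t, ht, S, hS1, hS2⟩ := hX0 X ((le_max_left _ _).trans hX) f e k hf2 hf
      (hfX.trans (Real.rpow_le_rpow_of_exponent_le hX1 (min_le_right _ _))) he hk
    refine ⟨t, ht, S, hS1, fun q hq => ?_⟩
    obtain ⟨g1, g2, g3, g4, g5⟩ := hS2 q hq
    exact ⟨g1, g2, g4, g5⟩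

end Pool.Agent.Results.MP_48b1c3_nt.EveryLargeModulus
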