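import Mathlib
import Pool.Agent.H482.MR.M11
import Pool.Agent.H482.MR.M12

/-!
# Primes which are joined with a given prime

Two primes `p`, `q` are joined if each of them is a primitive root modulo the other one. The primes `p`
joined with `q` are those with `Frob_p ∈ C`, where `C` is the set of the generators of the cyclic group
`Gal(F/ℚ)`, `F = ℚ(ζ_q)`, and such that the group `W = ⟨q⟩` has index `1` modulo `p`: Lenstra's data
`(F, C, W, 1)`. Let
`T x z c` be the set of the primes `p ≤ x`, `p ≡ c mod 4`, such that `p - 1` has no odd prime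
factor `≤ z`, and let `J x z q c` be the set of the primes of `T x z c` which are joined with `q`.

1. For all but at most `K log x / log z` of the odd primes `q ≤ (log x) ^ B` the set `J x z q c`
   has the relative density `φ (q - 1) / (q - 2)`, up to `ε`, in `T x z c`, for `c = 1`, and for
   `c = 3` if `q ≡ 1 mod 4` (for `q ≡ 3 mod 4`, `c = 3` the set is empty by the reciprocity law).
   For these `q` the number of the `k`-tuples of primes of `J x z q (c_i)` with prescribed
   compatible relations `t i is a primitive root modulo t j` is asymptotically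
   `2 ^ (-k (k - 1) / 2) (φ (q - 1) / (q - 2)) ^ k ∏ |T x z (c_i)|`.
2. For every `η > 0` all but at most `C = C(η)` of the primes `q` with `φ (q - 1) ≥ η q` have the
   property that every finite graph occurs, with the relation `joined` and its negation, among
   arbitrarily large primes which are joined with `q`. In particular `S(q)` is infinite for them,
   there are infinitely many primes joined with `q`, and cliques of every size contain `q`.
-/

set_option autoImplicit false

open Finset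

namespace Pool.Agent.Results.MP_48b1c3_nt.JoinedWithAPrime

open Classical in
/-- the primes `p ≤ x`, `p ≡ c mod 4`, such that `p - 1` has no odd prime factor `≤ z` -/
noncomputable def T (x z c : ℕ) : Finset ℕ :=
  (range (x + 1)).filter (fun p => p.Prime ∧ p % 4 = c ∧
    ∀ q ∈ (p - 1).primeFactors, q = 2 ∨ z < q)

/-- `n` is a primitive root modulo the prime `p` -/
def IsRoot (n p : ℕ) : Prop := orderOf (n : ZMod p) = p - 1

open Classical in
/-- the primes of `T x z c` which are joined with `q` -/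
noncomputable def J (x z q c : ℕ) : Finset ℕ :=
  (T x z c).filter (fun p => IsRoot q p ∧ IsRoot p q)

/-- the prescribed relation `s` is compatible with the classes `c` modulo `4` -/
def Compatible {k : ℕ} (c : Fin k → ℕ) (s : Fin k → Fin k → Prop) : Prop :=
  (∀ i, c i = 1 ∨ c i = 3) ∧ ∀ i j, i ≠ j →
    ((c i = 3 ∧ c j = 3) → (s j i ↔ ¬ s i j)) ∧ (¬ (c i = 3 ∧ c j = 3) → (s j i ↔ s i j))

/-- the `t i` are distinct, and `t i` is a primitive root modulo `t j` if and only if `s i j` -/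
def Pattern {k : ℕ} (s : Fin k → Fin k → Prop) (t : Fin k → ℕ) : Prop :=
  Function.Injective t ∧ ∀ i j : Fin k, i ≠ j → (IsRoot (t i) (t j) ↔ s i j)

open Classical in
/-- the number of the tuples with the prescribed relation -/
noncomputable def count {k : ℕ} (A : Fin k → Finset ℕ) (s : Fin k → Fin k → Prop) : ℕ :=
  ((Fintype.piFinset A).filter (fun t => Pattern s t)).card

/-- the relative density of the primes which are joined with `q` -/
noncomputable def ρ (q : ℕ) : ℝ := (Nat.totient (q - 1) : ℝ) / ((q : ℝ) - 2)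

/-- every finite graph occurs among arbitrarily large primes which are joined with `q` -/
def GraphUniversal (q : ℕ) : Prop :=
  ∀ (k : ℕ) (s : Fin k → Fin k → Prop), (∀ i j, s i j ↔ s j i) → ∀ N : ℕ,
    ∃ t : Fin k → ℕ, (∀ i, N < t i ∧ (t i).Prime ∧ IsRoot q (t i) ∧ IsRoot (t i) q) ∧ Pattern s t

open Pool.Agent.H482.MR

theorem T_eq (x z c : ℕ) : T x z c = Tf x z c := by
  unfold T Tf
  ext p
  simp only [mem_filter, mem_range, mem_TT]
  constructor
  · rintro ⟨h1, h2, h3, h4⟩
    refine ⟨⟨⟨h2.pos, by omega⟩, h2, fun q hq hqp => ?_⟩, h3⟩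
    rw [Pool.Agent.Y855.mem_OP] at hq
    have hp1 : p - 1 ≠ 0 := by
      intro h0
      have := h2.two_le
      omega
    rcases h4 q (Nat.mem_primeFactors.2 ⟨hq.1, hqp, hp1⟩) with h | h <;> omega
  · rintro ⟨⟨h1, h2, h3⟩, h4⟩
    refine ⟨by omega, h2, h4, fun q hq => ?_⟩
    by_contra hcon
    push Not at hcon
    have hqp := Nat.prime_of_mem_primeFactors hq
    refine h3 q (Pool.Agent.Y855.mem_OP.2 ⟨hqp, ?_, hcon.2⟩) (Nat.dvd_of_mem_primeFactors hq)
    have := hqp.two_le
    omega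

theorem count_eq {k : ℕ} (A : Fin k → Finset ℕ) (s : Fin k → Fin k → Prop) :
    count A s = cnt A s := by
  classical
  unfold count cnt
  exact congrArg card (filter_congr (fun t _ => Iff.rfl))

open Classical in
theorem J_eq (x z q c : ℕ) : J x z q c = Jc x z q c := by
  unfold J Jc
  rw [T_eq]
  exact filter_congr (fun _ _ => Iff.rfl)

theorem graph_iff (q : ℕ) : GraphUniversal q ↔ Pool.Agent.H482.MR.Joined q := by
  unfold GraphUniversal Pool.Agent.H482.MR.Joined
  constructor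
  · intro h k s hs N
    obtain ⟨t, ht, hp⟩ := h k s hs N
    exact ⟨t, hp.1, ht, hp.2⟩
  · intro h k s hs N
    obtain ⟨t, h1, h2, h3⟩ := h k s hs N
    exact ⟨t, h2, h1, h3⟩

/-- differences of products -/
theorem prod_diff {k : ℕ} (a b n : Fin k → ℝ) (ε : ℝ) (hε : 0 ≤ ε) (ha0 : ∀ i, 0 ≤ a i)
    (han : ∀ i, a i ≤ n i) (hb0 : ∀ i, 0 ≤ b i) (hbn : ∀ i, b i ≤ n i)
    (hab : ∀ i, |a i - b i| ≤ ε * n i) : |∏ i, a i - ∏ i, b i| ≤ k * ε * ∏ i, n i := by
  induction k with
  | zero => simp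
  | succ k ih =>
    have hn0 : ∀ i, 0 ≤ n i := fun i => (ha0 i).trans (han i)
    rw [Fin.prod_univ_succ, Fin.prod_univ_succ, Fin.prod_univ_succ]
    have h1 := ih (fun i => a i.succ) (fun i => b i.succ) (fun i => n i.succ) (fun i => ha0 _)
      (fun i => han _) (fun i => hb0 _) (fun i => hbn _) (fun i => hab _)
    have e : a 0 * ∏ i : Fin k, a i.succ - b 0 * ∏ i : Fin k, b i.succ =
        (a 0 - b 0) * ∏ i : Fin k, a i.succ +
          b 0 * (∏ i : Fin k, a i.succ - ∏ i : Fin k, b i.succ) := by ring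
    rw [e]
    refine (abs_add_le _ _).trans ?_
    rw [abs_mul, abs_mul, abs_of_nonneg (hb0 0)]
    have h2 : |∏ i : Fin k, a i.succ| ≤ ∏ i : Fin k, n i.succ := by
      rw [abs_of_nonneg (prod_nonneg fun i _ => ha0 _)]
      exact prod_le_prod (fun i _ => ha0 _) fun i _ => han _
    have h3 : |a 0 - b 0| * |∏ i : Fin k, a i.succ| ≤ ε * n 0 * ∏ i : Fin k, n i.succ :=
      mul_le_mul (hab 0) h2 (abs_nonneg _) (mul_nonneg hε (hn0 0))
    have h4 : b 0 * |∏ i : Fin k, a i.succ - ∏ i : Fin k, b i.succ| ≤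
        n 0 * (k * ε * ∏ i : Fin k, n i.succ) := mul_le_mul (hbn 0) h1 (abs_nonneg _) (hn0 0)
    have e2 : ((k + 1 : ℕ) : ℝ) * ε * (n 0 * ∏ i : Fin k, n i.succ) =
        ε * n 0 * ∏ i : Fin k, n i.succ + n 0 * (k * ε * ∏ i : Fin k, n i.succ) := by
      push_cast; ring
    rw [e2]
    exact add_le_add h3 h4

/-- **Theorem.** See the comment at the beginning of the file. -/
theorem result :
    (∀ (B : ℕ) (ε : ℝ), 0 < ε → ∃ K : ℝ, 1 ≤ K ∧ ∃ x₀ : ℕ, ∀ x : ℕ, x₀ ≤ x → ∀ z : ℕ,
      K * (Real.log x * Real.log (Real.log x)) ≤ (Real.log z) ^ 2 → (z : ℝ) ^ K ≤ x →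
      (∀ c : ℕ, c = 1 ∨ c = 3 → (x : ℝ) / (K * (Real.log x * Real.log z)) ≤ (T x z c).card) ∧
      ∀ Q : Finset ℕ, (∀ q ∈ Q, q.Prime ∧ 3 ≤ q ∧ (q : ℝ) ≤ (Real.log x) ^ B) →
        ∃ E ⊆ Q, (E.card : ℝ) ≤ K * (Real.log x / Real.log z) ∧
        ∀ q ∈ Q \ E,
        (∀ c : ℕ, (c = 1 ∨ (c = 3 ∧ q % 4 = 1)) →
          |((J x z q c).card : ℝ) - ρ q * (T x z c).card| ≤ ε * (T x z c).card) ∧
        ∀ (k : ℕ) (c : Fin k → ℕ) (s : Fin k → Fin k → Prop), Compatible c s →
          (∀ i, c i = 1 ∨ q % 4 = 1) →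
          |(count (fun i => J x z q (c i)) s : ℝ) -
            (1 / 2) ^ (k.choose 2) * (ρ q) ^ k * ∏ i, ((T x z (c i)).card : ℝ)| ≤
            (k * ε + (k : ℝ) ^ 2 / √z) * ∏ i, ((T x z (c i)).card : ℝ)) ∧
    ∀ η : ℝ, 0 < η → ∃ C : ℕ,
      {q : ℕ | q.Prime ∧ η * q ≤ Nat.totient (q - 1) ∧ ¬ GraphUniversal q}.encard ≤ C := by
  classical
  refine ⟨?_, ?_⟩
  · intro B ε hε
    obtain ⟨K, hK, x₀, hx₀, H⟩ := mainJ B ε hε
    refine ⟨K, by linarith, x₀, fun x hx z hKL hzK => ?_⟩
    obtain ⟨h1, h2, h3⟩ := H x hx z hKL hzK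
    refine ⟨fun c hc => by rw [T_eq]; exact h1 c hc, ?_⟩
    intro Q hQ
    obtain ⟨E, hE, hEc, h4⟩ := h3 Q hQ
    refine ⟨E, hE, hEc, fun q hq => ?_⟩
    have hJ : ∀ c : ℕ, (c = 1 ∨ (c = 3 ∧ q % 4 = 1)) →
          |((J x z q c).card : ℝ) - ρ q * (T x z c).card| ≤ ε * (T x z c).card := by
      intro c hc
      have h5 := h4 q hq c hc
      rw [J_eq, T_eq]
      exact h5
    refine ⟨hJ, fun k c s hcs hc1 => ?_⟩
    have hq3 : 3 ≤ q := (hQ q (Finset.mem_sdiff.1 hq).1).2.1
    have h5 := h2 k c s hcs (fun i => J x z q (c i)) (fun i => by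
      rw [← T_eq]
      exact filter_subset _ _)
    rw [← count_eq] at h5
    simp_rw [← T_eq] at h5
    have hρ0 : 0 ≤ ρ q := rho_nonneg q hq3
    have hρ1 : ρ q ≤ 1 := rho_le_one q hq3
    have h6 := prod_diff (fun i => ((J x z q (c i)).card : ℝ))
      (fun i => ρ q * ((T x z (c i)).card : ℝ)) (fun i => ((T x z (c i)).card : ℝ)) ε hε.le
      (fun i => Nat.cast_nonneg _) (fun i => by exact_mod_cast card_le_card (filter_subset _ _))
      (fun i => mul_nonneg hρ0 (Nat.cast_nonneg _))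
      (fun i => mul_le_of_le_one_left (Nat.cast_nonneg _) hρ1)
      (fun i => hJ (c i) (by
        rcases hcs.1 i with h | h
        · exact Or.inl h
        · rcases hc1 i with h' | h'
          · exact Or.inl h'
          · exact Or.inr ⟨h, h'⟩))
    have e1 : ∏ i, (ρ q * ((T x z (c i)).card : ℝ)) =
        (ρ q) ^ k * ∏ i, ((T x z (c i)).card : ℝ) := by
      rw [prod_mul_distrib, prod_const, card_univ, Fintype.card_fin]
    rw [e1] at h6
    set X : ℝ := (count (fun i => J x z q (c i)) s : ℝ)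
    set Y : ℝ := ∏ i, ((J x z q (c i)).card : ℝ)
    set Z : ℝ := ∏ i, ((T x z (c i)).card : ℝ)
    have hZ0 : 0 ≤ Z := prod_nonneg fun i _ => Nat.cast_nonneg _
    have e2 : X - (1 / 2) ^ (k.choose 2) * (ρ q) ^ k * Z =
        (X - (1 / 2) ^ (k.choose 2) * Y) + (1 / 2) ^ (k.choose 2) * (Y - (ρ q) ^ k * Z) := by ring
    rw [e2]
    refine (abs_add_le _ _).trans ?_
    rw [abs_mul, abs_of_nonneg (by positivity : (0 : ℝ) ≤ (1 / 2) ^ (k.choose 2))]
    have h7 : (1 / 2 : ℝ) ^ (k.choose 2) * |Y - (ρ q) ^ k * Z| ≤ 1 * (k * ε * Z) :=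
      mul_le_mul (pow_le_one₀ (by norm_num) (by norm_num)) h6 (abs_nonneg _) (by norm_num)
    linarith
  · intro η hη
    obtain ⟨C, hC⟩ := joined_few η hη
    refine ⟨C, ?_⟩
    simp_rw [graph_iff]
    exact hC

end Pool.Agent.Results.MP_48b1c3_nt.JoinedWithAPrime
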