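import Mathlib
import Pool.Agent.H482.AP.Jcor

/-!
# Lenstra's question for cyclotomic fields of large degree

Let `q` be a prime, `F = ℚ(ζ_q)`, `C` a set of classes modulo `q` (a subset of `Gal(F/ℚ)`) and `W = ⟨q⟩`.
Lenstra's question for the data `(F, C, W, 1)` asks for the density of the primes `p` with `p mod q ∈ C`
modulo which `q` is a primitive root. Here the field `F` may depend on the size of the primes `p`: the
prime `q` may be as large as `x ^ (1 / 2 - δ)` for the primes `p ≤ x`.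

`T k x c` is the set of the primes `p ≤ x`, `p ≡ c mod 4`, such that every odd prime factor of `p - 1`
exceeds `x ^ (1 / k)`. By the reciprocity law `q` can be a primitive root modulo a prime `p ≡ c mod 4`
only if the class `u` of `p` modulo `q` is admissible: `(u / q) = 1` if `c = 3` and `q ≡ 3 mod 4`, and
`(u / q) = -1` otherwise.

1. For all `k ≥ k₀`, `ε > 0`, `δ > 0` there is `K` such that for all large `x` all primes
   `q ≤ x ^ (1 / 2 - δ)` with at most `K` exceptions have the following property: for EVERY set `C` of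
   classes modulo `q`, the number of the primes `p ∈ T k x c` in the classes of `C` modulo which `q` is a
   primitive root is `(#{u ∈ C : u admissible} / q + O(ε)) #(T k x c)`.
2. Two primes `p`, `q` are joined if each of them is a primitive root modulo the other one. For all `δ > 0`
   and `η > 0` all primes `q ≤ N` with `φ(q - 1) ≥ η q`, with at most `C (1 + log log N)` exceptions,
   are joined with at least `q ^ 2` primes `p ≤ q ^ (2 + δ)` (the case of the primitive classes `C`).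
-/

set_option autoImplicit false

open Finset

namespace Pool.Agent.Results.MP_48b1c3_nt.LargeCyclotomicFields

open Classical in
/-- the primes `p ≤ x`, `p ≡ c mod 4`, such that every odd prime factor of `p - 1` exceeds
`x ^ (1 / k)` -/
noncomputable def T (k x c : ℕ) : Finset ℕ :=
  (range (x + 1)).filter (fun p => p.Prime ∧ p % 4 = c ∧
    ∀ l ∈ (p - 1).primeFactors, l = 2 ∨ (x : ℝ) ^ (1 / (k : ℝ)) < l)

/-- `n` is a primitive root modulo the prime `p` -/
def IsRoot (n p : ℕ) : Prop := orderOf (n : ZMod p) = p - 1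

/-- the class `u` modulo `q` is admissible for primes `≡ c mod 4` -/
def Admissible (c q u : ℕ) : Prop :=
  jacobiSym u q = if c = 3 ∧ q % 4 = 3 then 1 else -1

open Classical in
/-- the number of the primes `p` of `T k x c` modulo which `q` is a primitive root and which belong to one
of the classes of `C` modulo `q` -/
noncomputable def count (q k x c : ℕ) (C : Finset ℕ) : ℕ :=
  ((T k x c).filter (fun p => IsRoot q p ∧ p % q ∈ C)).card

open Classical in
/-- the proportion of the admissible classes of `C` -/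
noncomputable def ρ (q c : ℕ) (C : Finset ℕ) : ℝ :=
  ((C.filter (fun u => Admissible c q u)).card : ℝ) / q

open Classical in
/-- the number of the primes `p ≤ y` joined with `q` -/
noncomputable def J (q : ℕ) (y : ℝ) : ℕ :=
  ((Icc 1 ⌊y⌋₊).filter (fun p => p.Prime ∧ IsRoot q p ∧ IsRoot p q)).card

open Pool.Agent.H482.MR (Tf mem_TT zz)

theorem T_eq (k x c : ℕ) : T k x c = Tf x (zz k x) c := by
  unfold T Tf
  ext p
  simp only [mem_filter, mem_range, mem_TT]
  have hx0 : (0 : ℝ) ≤ (x : ℝ) ^ (1 / (k : ℝ)) := by positivity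
  constructor
  · rintro ⟨h1, h2, h3, h4⟩
    refine ⟨⟨⟨h2.pos, by omega⟩, h2, fun q hq hqp => ?_⟩, h3⟩
    rw [Pool.Agent.Y855.mem_OP] at hq
    have hp1 : p - 1 ≠ 0 := by
      intro h0
      have := h2.two_le
      omega
    rcases h4 q (Nat.mem_primeFactors.2 ⟨hq.1, hqp, hp1⟩) with h | h
    · omega
    · have h5 : zz k x < q := by
        unfold zz
        exact (Nat.floor_lt hx0).2 h
      omega
  · rintro ⟨⟨h1, h2, h3⟩, h4⟩
    refine ⟨by omega, h2, h4, fun q hq => ?_⟩
    by_contra hcon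
    push Not at hcon
    have hqp := Nat.prime_of_mem_primeFactors hq
    refine h3 q (Pool.Agent.Y855.mem_OP.2 ⟨hqp, ?_, ?_⟩) (Nat.dvd_of_mem_primeFactors hq)
    · have := hqp.two_le
      omega
    · unfold zz
      exact Nat.le_floor hcon.2

/-- **Theorem.** See the comment at the beginning of the file. -/
theorem result :
    (∃ (k₀ : ℕ) (K₁ : ℝ), 1 ≤ k₀ ∧ 1 ≤ K₁ ∧ ∀ k : ℕ, k₀ ≤ k → ∀ (ε δ : ℝ), 0 < ε → 0 < δ →
      ∃ K x₀ : ℕ, 3 ≤ x₀ ∧ ∀ x : ℕ, x₀ ≤ x →
      (∀ c : ℕ, c = 1 ∨ c = 3 → (x : ℝ) / (K₁ * (Real.log x) ^ 2) ≤ (T k x c).card) ∧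
      ∃ E : Finset ℕ, E.card ≤ K ∧
        ∀ q : ℕ, q.Prime → (q : ℝ) ≤ (x : ℝ) ^ (1 / 2 - δ) → q ∉ E →
        ∀ c : ℕ, c = 1 ∨ c = 3 → ∀ C ⊆ range q,
        |(count q k x c C : ℝ) - ρ q c C * ((T k x c).card : ℝ)| ≤ ε * ((T k x c).card : ℝ)) ∧
    ∀ δ η : ℝ, 0 < δ → 0 < η → ∃ C : ℝ, ∀ N : ℕ, 3 ≤ N →
      ({q ∈ Icc 1 N | q.Prime ∧ η * q ≤ (Nat.totient (q - 1) : ℝ) ∧
        (J q ((q : ℝ) ^ (2 + δ)) : ℝ) < (q : ℝ) ^ 2}.card : ℝ) ≤ C * (1 + Real.log (Real.log N)) := by
  constructor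
  · obtain ⟨k₀, hk₀, K₁, hK₁, h⟩ := Pool.Agent.H482.AP.main_join
    refine ⟨k₀, K₁, hk₀, hK₁, fun k hk ε δ hε hδ => ?_⟩
    obtain ⟨K, x₀, hx₀, h2⟩ := h k hk ε δ hε hδ
    refine ⟨K, x₀, hx₀, fun x hx => ?_⟩
    obtain ⟨h3, E, h4, h6⟩ := h2 x hx
    refine ⟨fun c hc => ?_, E, h4, fun q hq hqx hqE c hc C hC => ?_⟩
    · rw [T_eq]
      exact h3 c hc
    · have h7 := h6 q hq hqx hqE c hc C hC
      have e : count q k x c C = ((Tf x (zz k x) c).filter
          (fun p : ℕ => orderOf ((q : ℕ) : ZMod p) = p - 1 ∧ p % q ∈ C)).card := by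
        unfold count IsRoot
        rw [T_eq]
        congr!
      rw [e, T_eq]
      exact h7
  · intro δ η hδ hη
    obtain ⟨C, hC⟩ := Pool.Agent.H482.AP.main_joined δ η hδ hη
    refine ⟨C, fun N hN => le_trans (le_of_eq ?_) (hC N hN)⟩
    congr 2
    apply filter_congr
    intro q _
    have e : J q ((q : ℝ) ^ (2 + δ)) = Pool.Agent.H482.AP.Jn q ⌊(q : ℝ) ^ (2 + δ)⌋₊ := by
      unfold J Pool.Agent.H482.AP.Jn IsRoot
      congr!
    rw [e]

end Pool.Agent.Results.MP_48b1c3_nt.LargeCyclotomicFields
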